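import Pool.Agent.H74.TF.Stm

/-! Parts LOW and GENW of the project TF (helper74). -/

set_option autoImplicit false
set_option linter.all false

namespace Pool.Agent.H26.TF

open Finset Equiv MvPolynomial Pool.Agent.H74.TF

/-- the pair of a point -/
def pr {m k : ℕ} : Pt m k → Option (Fin m)
  | Sum.inl x => some x.1
  | Sum.inr _ => none

/-- the word -/
def wrd {m k : ℕ} (ys : List (Pt m k)) (cs : List (Fin m ⊕ Fin k)) : Perm (Pt m k) :=
  (List.zipWith (fun y c => swap y (ctr c)) ys cs).prod

theorem word (hV : C_V0) (R : Type) [CommRing R] (m k : ℕ) (cs : List (Fin m ⊕ Fin k)) :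
    ∀ g, val R cs g ≠ 0 → ∃ ys : List (Pt m k), ys.length = cs.length ∧
      ∃ a b, wr a ∧ g = wrd ys cs * iot a b := by
  induction cs with
  | nil =>
    intro g hg
    by_contra hno
    apply hg
    show v0 R m k g = 0
    apply (hV.2.2 R m k).2.1
    rintro ⟨a, b, ha, rfl⟩
    apply hno
    refine ⟨[], rfl, a, b, ha, ?_⟩
    simp [wrd]
  | cons c cs ih =>
    intro g hg
    have hg' : (∑ y : Pt m k with rk y < rk (ctr c), val R cs (swap y (ctr c) * g)) ≠ 0 := hg
    obtain ⟨y, -, hy⟩ := Finset.exists_ne_zero_of_sum_ne_zero hg'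
    obtain ⟨ys, hlen, a, b, ha, h⟩ := ih _ hy
    refine ⟨y :: ys, by simp [hlen], a, b, ha, ?_⟩
    have e : wrd (y :: ys) (c :: cs) = swap y (ctr c) * wrd ys cs := by
      simp [wrd]
    rw [e, mul_assoc, ← h, ← mul_assoc, swap_mul_self, one_mul]

theorem wrd_fix {m k : ℕ} (i : Fin m) (b : Bool) : ∀ (ys : List (Pt m k))
    (cs : List (Fin m ⊕ Fin k)), (∀ y ∈ ys, pr y ≠ some i) → Sum.inl i ∉ cs →
      wrd ys cs (Sum.inl (i, b)) = Sum.inl (i, b) := by
  intro ys
  induction ys with
  | nil => intro cs _ _; simp [wrd]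
  | cons y ys ih =>
    intro cs h1 h2
    cases cs with
    | nil => simp [wrd]
    | cons c cs =>
      have e : wrd (y :: ys) (c :: cs) = swap y (ctr c) * wrd ys cs := by
        simp [wrd]
      rw [e, Perm.mul_apply, ih cs (fun y hy => h1 y (List.mem_cons_of_mem _ hy))
        (fun h => h2 (List.mem_cons_of_mem _ h))]
      apply swap_apply_of_ne_of_ne
      · intro h
        apply h1 y List.mem_cons_self
        rw [← h]; rfl
      · intro h
        apply h2
        cases c with
        | inl j =>
          have h3 : (i, b) = (j, false) := Sum.inl_injective h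
          have h4 : i = j := congrArg Prod.fst h3
          rw [h4]
          exact List.mem_cons_self
        | inr r => exact absurd h (by simp [ctr])

theorem NF_sub (hV : C_V0) {m k : ℕ} (ys : List (Pt m k)) (cs : List (Fin m ⊕ Fin k))
    (g : Perm (Pt m k)) (a : Perm (Fin m × Bool)) (b : Perm (Fin k)) (ha : wr a)
    (hg : g = wrd ys cs * iot a b) : NF g ⊆ (ys.filterMap pr).toFinset ∪ pc cs := by
  classical
  intro i hi
  rw [Finset.mem_union]
  by_contra hno
  rw [not_or] at hno
  obtain ⟨h1, h2⟩ := hno
  have h1' : ∀ y ∈ ys, pr y ≠ some i := by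
    intro y hy h
    apply h1
    rw [List.mem_toFinset, List.mem_filterMap]
    exact ⟨y, hy, h⟩
  have h2' : Sum.inl i ∉ cs := by
    intro h
    apply h2
    simp [pc, h]
  have f0 := wrd_fix i false ys cs h1' h2'
  have f1 := wrd_fix i true ys cs h1' h2'
  have hc : iot a b * dl m k = dl m k * iot a b := (hV.2.1 m k (iot a b)).mp ⟨a, b, ha, rfl⟩
  have hiv : iv g = wrd ys cs * dl m k * (wrd ys cs)⁻¹ := by
    rw [iv, hg, mul_inv_rev, mul_assoc (wrd ys cs) (iot a b) (dl m k), hc]
    group
  have : iv g (Sum.inl (i, false)) = Sum.inl (i, true) := by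
    rw [hiv, Perm.mul_apply, Perm.mul_apply]
    have e0 : (wrd ys cs)⁻¹ (Sum.inl (i, false)) = Sum.inl (i, false) := by
      rw [Perm.inv_eq_iff_eq, f0]
    rw [e0]
    have e1 : dl m k (Sum.inl (i, false)) = Sum.inl (i, true) := rfl
    rw [e1, f1]
  rw [NF, Finset.mem_filter] at hi
  exact hi.2 this

theorem card_filterMap_le {m k : ℕ} (ys : List (Pt m k)) :
    (ys.filterMap pr).toFinset.card ≤ ys.length :=
  (List.toFinset_card_le _).trans (List.length_filterMap_le _ _)

theorem t_LOW (hV : C_V0) : C_LOW := by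
  classical
  intro R _ m k cs g hg
  obtain ⟨ys, hlen, a, b, ha, h⟩ := word hV R m k cs g hg
  have hsub := NF_sub hV ys cs g a b ha h
  have h1 := card_filterMap_le ys
  rw [hlen] at h1
  have h2 := Finset.card_le_card hsub
  have h3 := Finset.card_union_le (ys.filterMap pr).toFinset (pc cs)
  have hw : wt cs = cs.length + (pc cs).card := rfl
  refine ⟨by omega, fun heq => ?_⟩
  have h4 : ((ys.filterMap pr).toFinset ∪ pc cs).card ≤ (NF g).card := by omega
  have h5 := Finset.eq_of_subset_of_card_le hsub h4
  rw [h5]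
  exact Finset.subset_union_right

theorem all_inl {m k : ℕ} : ∀ (yl : List (Pt m k)), (yl.filterMap pr).length = yl.length →
    ∃ ys : List (Fin m × Bool), yl = ys.map Sum.inl ∧ yl.filterMap pr = ys.map Prod.fst := by
  intro yl
  induction yl with
  | nil => intro _; exact ⟨[], rfl, rfl⟩
  | cons y yl ih =>
    intro h
    cases y with
    | inl x =>
      have e : (Sum.inl x :: yl : List (Pt m k)).filterMap pr = x.1 :: yl.filterMap pr := rfl
      rw [e, List.length_cons, List.length_cons] at h
      obtain ⟨ys, h1, h2⟩ := ih (by omega)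
      refine ⟨x :: ys, by rw [h1]; rfl, ?_⟩
      rw [e, h2]; rfl
    | inr r =>
      have e : (Sum.inr r :: yl : List (Pt m k)).filterMap pr = yl.filterMap pr := rfl
      rw [e, List.length_cons] at h
      have := List.length_filterMap_le pr yl
      omega

theorem t_GENW (hV : C_V0) : C_GENW := by
  classical
  intro R _ m k cs g hg heq
  obtain ⟨yl, hlen, a, b, ha, h⟩ := word hV R m k cs g hg
  have hsub := NF_sub hV yl cs g a b ha h
  have h1 := List.toFinset_card_le (yl.filterMap pr)
  have h1' := List.length_filterMap_le pr yl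
  rw [hlen] at h1'
  have h2 := Finset.card_le_card hsub
  have h3 := Finset.card_union_add_card_inter (yl.filterMap pr).toFinset (pc cs)
  have hw : wt cs = cs.length + (pc cs).card := rfl
  have h4 : (yl.filterMap pr).toFinset.card = (yl.filterMap pr).length := by omega
  have h5 : (yl.filterMap pr).length = yl.length := by omega
  have h6 : ((yl.filterMap pr).toFinset ∩ pc cs).card = 0 := by omega
  rw [Finset.card_eq_zero] at h6
  obtain ⟨ys, hys, hys2⟩ := all_inl yl h5
  refine ⟨ys, ?_, ?_, ?_, a, b, ha, ?_⟩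
  · rw [← hlen, hys, List.length_map]
  · rw [← hys2]
    have h7 : (yl.filterMap pr).dedup = yl.filterMap pr :=
      (List.dedup_sublist _).eq_of_length (by rw [← List.card_toFinset]; exact h4)
    rw [← h7]
    exact List.nodup_dedup _
  · intro y hy hyc
    have : y.1 ∈ (yl.filterMap pr).toFinset ∩ pc cs := by
      rw [Finset.mem_inter]
      refine ⟨?_, hyc⟩
      rw [List.mem_toFinset, hys2]
      exact List.mem_map_of_mem hy
    rw [h6] at this
    exact absurd this (Finset.notMem_empty _)
  · rw [h, wrd, hys, List.zipWith_map_left]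

end Pool.Agent.H26.TF
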